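import Mathlib
import Pool.Agent.H491.Hoff
import Pool.Agent.H491.Conv

set_option autoImplicit false

/-!
# Sequences that differ from Hoffman's sequences in few entries

Let `C_k` be the set of the sequences of weight `k` with entries `2` and `3` (the set `C_{k,k}` of the problem; the number
`d_k` of its elements satisfies `d_k = d_{k-2} + d_{k-3}`), and `C*_{k,t}` the larger set of the sequences of weight `k`
with entries at least `2`, of which at most `t` are different from `2` and `3`. There is an `m ≥ 1` such that for all `e`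
and all `k ≥ 2 m e` every space `E` of real numbers of dimension at most `e` over the field of the real algebraic numbers
that does not contain `π ^ k` misses at least `d_{k - 2 m e} / binom(k, 2 m e)` of the numbers `ζ(w)`, `w ∈ C*_{k, m e + 1}`.
For a fixed `e` this is an inverse polynomial part of the number of elements of `C*_{k, m e + 1}`, which is at most
`C k ^ C d_k`.

Proof. If `ζ(w) / π ^ |w|` is algebraic for all sequences `w` with entries `2`, `3`, this is clear, as then no `ζ(w)`,
`w ∈ C_k`, is in `E`. Otherwise let `v` be a sequence with entries `2`, `3` and `θ = (ζ(v) / π ^ |v|) ^ 2` transcendental,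
and `m = |v|`. The numbers `z_i = ζ(v) ^ (2 i) ζ(2 m (e - i))`, `0 ≤ i ≤ e`, have the same weight and are linearly
independent over the real algebraic numbers. So for no sequence `u ∈ C_{k - 2 m e}` the space `E` contains all the
`ζ(u) z_i`. By the stuffle product `ζ(u) z_i` is a sum of values `ζ(w)`, `w ∈ C*_{k, m e + 1}`, and one gets `u` from `w` by
taking away `2 m e` units, which gives at most `binom(k, 2 m e)` sequences `u` for each `w`.
-/

namespace Pool.Agent.Results.MP_301213_nt.NearHoffmanWords

/-- the field of the real algebraic numbers -/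
noncomputable abbrev RealAlg : IntermediateField ℚ ℝ := algebraicClosure ℚ ℝ

/-- the sequences of weight `k` with entries `2` and `3` -/
def HoffmanSequences (k : ℕ) : Set (List ℕ) := {w | (∀ a ∈ w, a = 2 ∨ a = 3) ∧ w.sum = k}

/-- the sequences of weight `k` with entries at least `2`, at most `t` of them at least `4` -/
def NearSequences (k t : ℕ) : Set (List ℕ) :=
  {w | (∀ a ∈ w, 2 ≤ a) ∧ w.countP (fun a => 4 ≤ a) ≤ t ∧ w.sum = k}

/-- the multiple zeta value `ζ(k_1, …, k_n) = ∑_{0 < m_1 < ⋯ < m_n} m_1 ^ (-k_1) ⋯ m_n ^ (-k_n)` -/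
noncomputable def zeta (s : List ℕ) : ℝ :=
  ∑' m : {m : Fin s.length → ℕ // StrictMono m ∧ ∀ i, 1 ≤ m i}, ∏ i, (((m.1 i : ℕ) : ℝ) ^ s.get i)⁻¹

open Pool.Agent.H447R2.MZ Pool.Agent.H491

theorem near_reverse {j : ℕ} {w : List ℕ} (h : Hit.Near j w) : Hit.Near j w.reverse := by
  refine ⟨fun a ha => h.1 a (List.mem_reverse.1 ha), ?_⟩
  rw [List.countP_reverse]
  exact h.2

theorem zeta_eq (s : List ℕ) (hs : Adm s.reverse) : zeta s = val s.reverse := (Hit.val_eq_tsum_mono s hs).symm

theorem result : ∃ m : ℕ, 1 ≤ m ∧ ∀ (e k : ℕ) (E : Submodule RealAlg ℝ), 2 * (m * e) ≤ k → Module.rank RealAlg E ≤ e →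
    Real.pi ^ k ∉ E → (HoffmanSequences (k - 2 * (m * e))).ncard ≤
      k.choose (2 * (m * e)) * {w ∈ NearSequences k (m * e + 1) | zeta w ∉ E}.ncard := by
  obtain ⟨m, hm, h⟩ := Hit.near_hoffman
  refine ⟨m, hm, fun e k E hk hE hpi => ?_⟩
  have h1 := h e k E hk hE hpi
  have e1 : HoffmanSequences (k - 2 * (m * e)) = ↑(Hit.HW (k - 2 * (m * e))) := by
    ext w
    rw [Finset.mem_coe, Hit.mem_HW]
    rfl
  have e2 : {w ∈ NearSequences k (m * e + 1) | zeta w ∉ E} =
      List.reverse '' (↑(Hit.NO k (m * e + 1) E) : Set (List ℕ)) := by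
    ext w
    rw [Set.mem_sep_iff, Set.mem_image]
    constructor
    · rintro ⟨⟨h2, h3, h4⟩, h5⟩
      refine ⟨w.reverse, ?_, List.reverse_reverse w⟩
      have h6 : Hit.Near (m * e + 1) w.reverse := near_reverse ⟨h2, h3⟩
      rw [zeta_eq w (Hit.near_adm h6)] at h5
      rw [Finset.mem_coe, Hit.mem_NO]
      exact ⟨h6, by rw [List.sum_reverse]; exact h4, h5⟩
    · rintro ⟨t, ht, rfl⟩
      rw [Finset.mem_coe, Hit.mem_NO] at ht
      have h6 := near_reverse ht.1
      refine ⟨⟨h6.1, h6.2, by rw [List.sum_reverse]; exact ht.2.1⟩, ?_⟩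
      rw [zeta_eq _ (by rw [List.reverse_reverse]; exact Hit.near_adm ht.1), List.reverse_reverse]
      exact ht.2.2
  rw [e1, e2, Set.ncard_coe_finset, Set.ncard_image_of_injective _ List.reverse_injective, Set.ncard_coe_finset]
  exact h1

end Pool.Agent.Results.MP_301213_nt.NearHoffmanWords
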